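import Pool.Agent.Helper38.DT.Defs
import Pool.Agent.Helper45.RatRed

/-!
# Rational functions have long preperiodic orbits (module DT7)
-/

set_option autoImplicit false

namespace Pool.Agent.Helper35.DT

open Polynomial Pool.Agent.Helper93.RatODE Pool.Agent.Helper45.FR Pool.Agent.Helper38.DT

section points

variable {k : Type} [Field k]

open Classical in
/-- the point of the projective line with the given coordinates -/
noncomputable def pt (v : k × k) : Option k := if v.2 = 0 then none else some (v.1 / v.2)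

/-- coordinates of a point -/
def lf : Option k → k × k
  | none => (1, 0)
  | some x => (x, 1)

theorem lf_ne (t : Option k) : lf t ≠ 0 := by
  cases t with
  | none => intro h; exact one_ne_zero (congrArg Prod.fst h)
  | some x => intro h; exact one_ne_zero (congrArg Prod.snd h)

theorem pt_lf (t : Option k) : pt (lf t) = t := by
  cases t with
  | none => simp [pt, lf]
  | some x => simp [pt, lf]

theorem cr_lf_pt {v : k × k} (_hv : v ≠ 0) : cr (lf (pt v)) v = 0 := by
  by_cases h : v.2 = 0
  · simp [pt, h, lf, cr]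
  · simp only [pt, h, if_false, lf, cr]
    field_simp
    ring

theorem pt_eq_iff {v w : k × k} (hv : v ≠ 0) (hw : w ≠ 0) : pt v = pt w ↔ cr v w = 0 := by
  constructor
  · intro h
    have h1 := cr_lf_pt hv
    have h2 := cr_lf_pt hw
    rw [h] at h1
    rw [cr_comm, neg_eq_zero] at h1
    exact cr_trans hv (lf_ne _) h1 h2
  · intro h
    obtain ⟨c, hc, rfl⟩ := exists_smul_of_cr hv hw h
    by_cases h2 : v.2 = 0
    · simp [pt, h2]
    · have h3 : c * v.2 ≠ 0 := mul_ne_zero hc h2
      simp only [pt, h2, if_false, Prod.smul_snd, Prod.smul_fst, smul_eq_mul, h3]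
      rw [mul_div_mul_left _ _ hc]

end points

section core

variable {k : Type} [Field k] [IsAlgClosed k]

open Classical in
/-- The number of solutions of `y ^ m = c` when `m` is nonzero in `k`. -/
theorem card_pow_eq {m : ℕ} (hm : (m : k) ≠ 0) {c : k} (hc : c ≠ 0) :
    (X ^ m - C c : k[X]).roots.toFinset.card = m := by
  have hsep : (X ^ m - C c : k[X]).Separable := separable_X_pow_sub_C c hm hc
  have h1 : (X ^ m - C c : k[X]).roots.Nodup := nodup_roots hsep
  have h2 : Multiset.card (X ^ m - C c : k[X]).roots = (X ^ m - C c : k[X]).natDegree :=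
    (splits_iff_card_roots.1 (IsAlgClosed.splits _))
  rw [Multiset.toFinset_card_of_nodup h1, h2, natDegree_X_pow_sub_C]

/-- The polynomial case. -/
theorem core_poly (P : k[X]) (D : ℕ) (hD : 2 ≤ D) (hP : P.natDegree = D)
    (h1 : ∀ x, P.eval (P.eval x) = x → P.eval x = x)
    (h2 : ∀ x y, P.eval x = x → P.eval y = x → y = x) : False := by
  classical
  -- a fixed point
  obtain ⟨x₀, hx₀⟩ : ∃ x₀, P.eval x₀ = x₀ := by
    have hdeg : (P - X).natDegree = D := by
      rw [natDegree_sub_eq_left_of_natDegree_lt (by rw [natDegree_X, hP]; omega), hP]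
    obtain ⟨x, hx⟩ := IsAlgClosed.exists_root (P - X) (by
      intro h
      rw [degree_eq_natDegree (by intro h0; rw [h0, natDegree_zero] at hdeg; omega), hdeg] at h
      have : D = 0 := by exact_mod_cast h
      omega)
    refine ⟨x, ?_⟩
    rw [IsRoot.def, eval_sub, eval_X, sub_eq_zero] at hx
    exact hx
  set c := P.leadingCoeff with hcdef
  have hP0 : P ≠ 0 := by rintro rfl; rw [natDegree_zero] at hP; omega
  have hc : c ≠ 0 := leadingCoeff_ne_zero.2 hP0
  have hshape : P - C x₀ = C c * (X - C x₀) ^ D := by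
    have hdeg : (P - C x₀).natDegree = D := by rw [natDegree_sub_C, hP]
    have hne : P - C x₀ ≠ 0 := by intro h0; rw [h0, natDegree_zero] at hdeg; omega
    have hlc : (P - C x₀).leadingCoeff = c := by
      rw [hcdef, leadingCoeff, leadingCoeff, hdeg, hP, coeff_sub, coeff_C, if_neg (by omega),
        sub_zero]
    have hroots : (P - C x₀).roots = Multiset.replicate D x₀ := by
      rw [Multiset.eq_replicate]
      constructor
      · rw [← hdeg]; exact splits_iff_card_roots.1 (IsAlgClosed.splits _)
      · intro b hb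
        rw [mem_roots hne, IsRoot.def, eval_sub, eval_C, sub_eq_zero] at hb
        exact h2 x₀ b hx₀ hb
    have := C_leadingCoeff_mul_prod_multiset_X_sub_C
      (splits_iff_card_roots.1 (IsAlgClosed.splits (P - C x₀)))
    rw [← this, hlc, hroots, Multiset.map_replicate, Multiset.prod_replicate]
  have hev : ∀ x, P.eval x = x₀ + c * (x - x₀) ^ D := by
    intro x
    have := congrArg (eval x) hshape
    simp only [eval_sub, eval_C, eval_mul, eval_pow, eval_X] at this
    linear_combination this
  have hDk : (D : k) = 0 := by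
    by_contra hDk
    obtain ⟨y, hy⟩ := IsAlgClosed.exists_pow_nat_eq (c⁻¹) (n := D - 1) (by omega)
    have hy0 : y ≠ 0 := by
      rintro rfl
      rw [zero_pow (by omega)] at hy
      exact inv_ne_zero hc hy.symm
    have hyD : c * y ^ D = y := by
      have : y ^ D = y ^ (D - 1) * y := by rw [← pow_succ]; congr 1; omega
      rw [this, hy]
      field_simp
    have hcard := card_pow_eq hDk (c := y / c) (div_ne_zero hy0 hc)
    have hsub : (X ^ D - C (y / c) : k[X]).roots.toFinset ⊆ {y} := by
      intro z hz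
      rw [Multiset.mem_toFinset, mem_roots (X_pow_sub_C_ne_zero (by omega) _), IsRoot.def,
        eval_sub, eval_pow, eval_X, eval_C, sub_eq_zero] at hz
      have h3 := h2 (x₀ + y) (x₀ + z) (by rw [hev]; simp [hyD]) (by
        rw [hev, add_sub_cancel_left, hz]
        field_simp)
      rw [Finset.mem_singleton]
      exact add_left_cancel h3
    have := Finset.card_le_card hsub
    rw [hcard, Finset.card_singleton] at this
    omega
  have hD2 : ((D * D - 1 : ℕ) : k) ≠ 0 := by
    rw [Nat.cast_sub (by nlinarith), Nat.cast_mul, hDk]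
    simp
  have hcard := card_pow_eq hD2 (c := (c ^ (D + 1))⁻¹) (inv_ne_zero (pow_ne_zero _ hc))
  have hsub : (X ^ (D * D - 1) - C (c ^ (D + 1))⁻¹ : k[X]).roots.toFinset ⊆
      (X ^ (D - 1) - C c⁻¹ : k[X]).roots.toFinset := by
    intro z hz
    rw [Multiset.mem_toFinset, mem_roots (X_pow_sub_C_ne_zero (by
        have : 4 ≤ D * D := by nlinarith
        omega) _), IsRoot.def,
      eval_sub, eval_pow, eval_X, eval_C, sub_eq_zero] at hz
    have hz0 : z ≠ 0 := by
      rintro rfl
      rw [zero_pow (by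
        have : 4 ≤ D * D := by nlinarith
        omega)] at hz
      exact inv_ne_zero (pow_ne_zero _ hc) hz.symm
    have h3 : P.eval (P.eval (x₀ + z)) = x₀ + z := by
      rw [hev, hev, add_sub_cancel_left, add_sub_cancel_left, mul_pow, ← pow_mul]
      have h4 : z ^ (D * D) = z ^ (D * D - 1) * z := by
        rw [← pow_succ]; congr 1
        have : 4 ≤ D * D := by nlinarith
        omega
      rw [h4, hz]
      have : c ^ (D + 1) ≠ 0 := pow_ne_zero _ hc
      field_simp
      ring
    have h5 := h1 _ h3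
    rw [hev, add_sub_cancel_left] at h5
    have h6 : c * z ^ D = z := add_left_cancel h5
    have h7 : z ^ D = z ^ (D - 1) * z := by rw [← pow_succ]; congr 1; omega
    rw [Multiset.mem_toFinset, mem_roots (X_pow_sub_C_ne_zero (by omega) _), IsRoot.def,
      eval_sub, eval_pow, eval_X, eval_C, sub_eq_zero]
    rw [h7, ← mul_assoc] at h6
    have h8 : c * z ^ (D - 1) = 1 := mul_right_cancel₀ hz0 (by rw [h6, one_mul])
    field_simp
    linear_combination h8
  have h9 := Finset.card_le_card hsub
  rw [hcard] at h9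
  have h10 : (X ^ (D - 1) - C c⁻¹ : k[X]).roots.toFinset.card ≤ D - 1 := by
    refine (Multiset.toFinset_card_le _).trans ?_
    refine (card_roots' _).trans ?_
    rw [natDegree_X_pow_sub_C]
  have h11 : 2 * D ≤ D * D := Nat.mul_le_mul_right D hD
  omega

/-- The case where infinity is fixed. -/
theorem core_inf (U W : k[X]) (D : ℕ) (hD : 2 ≤ D) (h : IsRatD U W D) (hW : W.coeff D = 0)
    (h1 : ∀ v : k × k, v ≠ 0 → cr (phi U W D (phi U W D v)) v = 0 → cr (phi U W D v) v = 0)
    (h2 : ∀ v w : k × k, v ≠ 0 → w ≠ 0 → cr (phi U W D v) v = 0 → cr (phi U W D w) v = 0 →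
      cr w v = 0) : False := by
  have hphi : ∀ x : k, phi U W D (x, 1) = (U.eval x, W.eval x) := by
    intro x
    ext
    · change hev U D x 1 = _
      rw [hev_eq_eval U D h.degF _ _ one_ne_zero]
      simp
    · change hev W D x 1 = _
      rw [hev_eq_eval W D h.degG _ _ one_ne_zero]
      simp
  have hphi' : phi U W D ((1, 0) : k × k) = (U.coeff D, W.coeff D) := by
    ext
    · change hev U D (1 : k) 0 = _
      rw [hev_right_zero]
      simp
    · change hev W D (1 : k) 0 = _
      rw [hev_right_zero]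
      simp
  have hinf : cr (phi U W D ((1, 0) : k × k)) (1, 0) = 0 := by
    rw [hphi', hW]
    simp [cr]
  have hne1 : ((1, 0) : k × k) ≠ 0 := fun h0 => one_ne_zero (congrArg Prod.fst h0)
  have hne2 : ∀ x : k, ((x, 1) : k × k) ≠ 0 := fun x h0 => one_ne_zero (congrArg Prod.snd h0)
  have hWroot : ∀ x : k, W.eval x ≠ 0 := by
    intro x hx
    have h3 := h2 (1, 0) (x, 1) hne1 (hne2 x) hinf (by rw [hphi, hx]; simp [cr])
    simp [cr] at h3
  have hWdeg : W.degree = 0 := by
    by_contra hd
    obtain ⟨x, hx⟩ := IsAlgClosed.exists_root W hd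
    exact hWroot x hx
  obtain ⟨w, hw⟩ : ∃ w, W = C w := ⟨_, eq_C_of_degree_eq_zero hWdeg⟩
  have hw0 : w ≠ 0 := by
    intro h0
    apply hWroot 0
    rw [hw, h0]
    simp
  have hUdeg : U.natDegree = D := by
    have hU : U.coeff D ≠ 0 := by
      rcases h.top with h0 | h0
      · exact h0
      · exact absurd hW h0
    exact le_antisymm h.degF (le_natDegree_of_ne_zero hU)
  apply core_poly (C w⁻¹ * U) D hD
  · rw [natDegree_C_mul (inv_ne_zero hw0), hUdeg]
  · intro x hx
    have h3 := h1 (x, 1) (hne2 x) (by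
      have e1 : phi U W D (x, 1) = w • ((eval x (C w⁻¹ * U), 1) : k × k) := by
        rw [hphi, hw, eval_C, eval_mul, eval_C]
        ext
        · simp [hw0]
        · simp
      rw [e1, phi_smul, cr_smul_left, hphi, hw, eval_C]
      have e2 : eval (eval x (C w⁻¹ * U)) U = w * x := by
        rw [eval_mul, eval_C] at hx
        have h5 := congrArg (fun z => w * z) hx
        simp only [mul_inv_cancel_left₀ hw0] at h5
        exact h5
      rw [e2]
      simp [cr])
    rw [hphi, hw, eval_C] at h3
    simp only [cr] at h3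
    rw [eval_mul, eval_C]
    field_simp
    linear_combination h3
  · intro x y hx hy
    rw [eval_mul, eval_C] at hx hy
    field_simp at hx hy
    have h3 := h2 (x, 1) (y, 1) (hne2 x) (hne2 y) (by
      rw [hphi, hw, eval_C, hx]
      simp [cr]) (by
      rw [hphi, hw, eval_C, hy]
      simp [cr])
    simp only [cr] at h3
    linear_combination h3

/-- The general case. -/
theorem core_rat (U W : k[X]) (D : ℕ) (hD : 2 ≤ D) (h : IsRatD U W D)
    (h1 : ∀ v : k × k, v ≠ 0 → cr (phi U W D (phi U W D v)) v = 0 → cr (phi U W D v) v = 0)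
    (h2 : ∀ v w : k × k, v ≠ 0 → w ≠ 0 → cr (phi U W D v) v = 0 → cr (phi U W D w) v = 0 →
      cr w v = 0) : False := by
  by_cases hW : W.coeff D = 0
  · exact core_inf U W D hD h hW h1 h2
  -- a finite fixed point
  have hWdeg : W.natDegree = D := le_antisymm h.degG (le_natDegree_of_ne_zero hW)
  have hW0 : W ≠ 0 := by rintro rfl; simp at hW
  obtain ⟨t, ht⟩ : ∃ t, U.eval t = t * W.eval t := by
    have hdeg : (X * W).natDegree = D + 1 := by rw [natDegree_X_mul hW0, hWdeg]
    have hdeg' : (U - X * W).natDegree = D + 1 := by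
      rw [natDegree_sub_eq_right_of_natDegree_lt (by
        rw [hdeg]
        exact lt_of_le_of_lt h.degF (Nat.lt_succ_self D)), hdeg]
    obtain ⟨x, hx⟩ := IsAlgClosed.exists_root (U - X * W) (by
      intro h0
      rw [degree_eq_natDegree (by intro h0; rw [h0, natDegree_zero] at hdeg'; omega), hdeg'] at h0
      have : D + 1 = 0 := by exact_mod_cast h0
      omega)
    refine ⟨x, ?_⟩
    rw [IsRoot.def, eval_sub, eval_mul, eval_X, sub_eq_zero] at hx
    exact hx
  set θ : k × k → k × k := fun v => (v.2, v.1 - t * v.2) with hθ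
  set θ' : k × k → k × k := fun v => (t * v.1 + v.2, v.1) with hθ'
  have e1 : ∀ v, θ (θ' v) = v := by
    intro v; ext <;> simp [hθ, hθ']
  have e2 : ∀ v, θ' (θ v) = v := by
    intro v; ext <;> simp [hθ, hθ']
  have e3 : ∀ a b, cr (θ a) (θ b) = - cr a b := by
    intro a b; simp only [hθ, cr]; ring
  have e4 : ∀ v, phi (chP W D t) (chQ U W D t) D v = θ (phi U W D (θ' v)) := by
    intro v
    obtain ⟨h3, h4⟩ := ch_hev (P := U) (Q := W) (d := D) t v.1 v.2
    ext
    · exact h3
    · exact h4
  have e5 : ∀ v, v ≠ 0 → θ' v ≠ 0 := by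
    intro v hv h0
    apply hv
    rw [← e1 v, h0]
    simp [hθ]
  have hcr : ∀ a b, cr (θ a) b = - cr a (θ' b) := by
    intro a b
    conv_lhs => rw [← e1 b]
    exact e3 _ _
  apply core_inf (chP W D t) (chQ U W D t) D hD
    ⟨ch_isCoprime h.cop h.degF h.degG h.top t, (ch_natDegree (P := U) t).1, (ch_natDegree t).2,
      ch_coeff h.cop h.degF h.degG h.top t⟩
  · have h3 := congrArg Prod.snd (e4 (1, 0))
    have h4 : (phi (chP W D t) (chQ U W D t) D ((1, 0) : k × k)).2 = (chQ U W D t).coeff D := by
      change hev (chQ U W D t) D (1 : k) 0 = _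
      rw [hev_right_zero]
      simp
    rw [← h4, h3]
    have h5 : θ' (1, 0) = (t, 1) := by simp [hθ']
    rw [h5]
    change hev U D t 1 - t * hev W D t 1 = 0
    rw [hev_eq_eval U D h.degF _ _ one_ne_zero, hev_eq_eval W D h.degG _ _ one_ne_zero]
    simp only [one_pow, one_mul, div_one]
    rw [ht, sub_self]
  · intro v hv h3
    rw [e4, e4, e2, hcr, neg_eq_zero] at h3
    have h4 := h1 (θ' v) (e5 v hv) h3
    rw [e4, hcr, h4, neg_zero]
  · intro v w hv hw h3 h4
    rw [e4, hcr, neg_eq_zero] at h3 h4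
    have h5 := h2 (θ' v) (θ' w) (e5 v hv) (e5 w hw) h3 h4
    have h6 := e3 (θ' w) (θ' v)
    rw [e1, e1, h5, neg_zero] at h6
    exact h6

end core

section dynamics

/-- If a surjective self-map has only finitely many preperiodic points then some iterate of it
fixes all of them, and they have no other preimages under this iterate. -/
theorem exists_iterate {T : Type} (h : T → T) (hs : Function.Surjective h)
    (hfin : {t | ∃ a b : ℕ, a < b ∧ h^[a] t = h^[b] t}.Finite) :
    ∃ M : ℕ, 1 ≤ M ∧ (∀ t, (∃ a b : ℕ, a < b ∧ h^[a] t = h^[b] t) → h^[M] t = t) ∧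
      ∀ s t, (∃ a b : ℕ, a < b ∧ h^[a] t = h^[b] t) → h^[M] s = t → s = t := by
  set S : Set T := {t | ∃ a b : ℕ, a < b ∧ h^[a] t = h^[b] t} with hS
  have h1 : ∀ t ∈ S, h t ∈ S := by
    rintro t ⟨a, b, hab, he⟩
    refine ⟨a, b, hab, ?_⟩
    rw [← Function.iterate_succ_apply, ← Function.iterate_succ_apply,
      Function.iterate_succ_apply', Function.iterate_succ_apply', he]
  have h2 : ∀ t, h t ∈ S → t ∈ S := by
    rintro t ⟨a, b, hab, he⟩
    refine ⟨a + 1, b + 1, by omega, ?_⟩
    rw [Function.iterate_succ_apply, Function.iterate_succ_apply, he]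
  have h2' : ∀ n t, h^[n] t ∈ S → t ∈ S := by
    intro n
    induction n with
    | zero => intro t ht; exact ht
    | succ n ih =>
      intro t ht
      rw [Function.iterate_succ_apply'] at ht
      exact ih t (h2 _ ht)
  have : Finite S := hfin
  let g : S → S := fun t => ⟨h t.1, h1 t.1 t.2⟩
  have hg : Function.Surjective g := by
    rintro ⟨t, ht⟩
    obtain ⟨s, rfl⟩ := hs t
    exact ⟨⟨s, h2 s ht⟩, rfl⟩
  let e : Equiv.Perm S := Equiv.ofBijective g ⟨Finite.injective_iff_surjective.2 hg, hg⟩
  have hgn : ∀ (n : ℕ) (t : S), ((e ^ n) t).1 = h^[n] t.1 := by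
    intro n
    induction n with
    | zero => intro t; rfl
    | succ n ih =>
      intro t
      rw [pow_succ', Equiv.Perm.mul_apply, Function.iterate_succ_apply', ← ih]
      rfl
  have hpos : 0 < orderOf e := orderOf_pos e
  have hM : ∀ t ∈ S, h^[orderOf e] t = t := by
    intro t ht
    have := hgn (orderOf e) ⟨t, ht⟩
    rw [pow_orderOf_eq_one] at this
    exact this.symm
  refine ⟨orderOf e, hpos, hM, ?_⟩
  rintro s t ht rfl
  exact (hM s (h2' _ s ht)).symm

end dynamics

section main

variable {k : Type} [Field k] [IsAlgClosed k]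

/-- **DT7.** Constant maps have long preperiodic orbits (in homogeneous coordinates). -/
theorem dt7 (A B : k[X]) (δ : ℕ) (hδ : 2 ≤ δ)
    (hAB : IsRatD A B δ) (N : ℕ) :
    ∃ v : k × k, v ≠ 0 ∧ (∃ a b : ℕ, a < b ∧ cr ((phi A B δ)^[a] v) ((phi A B δ)^[b] v) = 0) ∧
      ∀ i ≤ N, ∀ j ≤ N, cr ((phi A B δ)^[i] v) ((phi A B δ)^[j] v) = 0 → i = j := by
  classical
  by_contra hcon
  push Not at hcon
  set φ : k × k → k × k := phi A B δ with hφ
  have hne : ∀ v : k × k, v ≠ 0 → φ v ≠ 0 := fun v hv =>
    phi_ne_zero hAB.cop hAB.degF hAB.degG hAB.top hv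
  have hnei : ∀ (n : ℕ) (v : k × k), v ≠ 0 → φ^[n] v ≠ 0 := fun n v hv =>
    phi_iter_ne_zero hAB.cop hAB.degF hAB.degG hAB.top hv n
  have hcri : ∀ (n : ℕ) (v w : k × k), v ≠ 0 → w ≠ 0 → cr v w = 0 → cr (φ^[n] v) (φ^[n] w) = 0 :=
    fun n v w hv hw h => cr_phi_iter hAB.cop hAB.degF hAB.degG hAB.top hv hw h n
  set h : Option k → Option k := fun t => pt (φ (lf t)) with hh
  have hpt : ∀ v : k × k, v ≠ 0 → h (pt v) = pt (φ v) := by
    intro v hv
    exact (pt_eq_iff (hne _ (lf_ne _)) (hne _ hv)).2 (hcri 1 _ _ (lf_ne _) hv (cr_lf_pt hv))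
  have hpti : ∀ (n : ℕ) (v : k × k), v ≠ 0 → h^[n] (pt v) = pt (φ^[n] v) := by
    intro n
    induction n with
    | zero => intro v _; rfl
    | succ n ih =>
      intro v hv
      rw [Function.iterate_succ_apply', Function.iterate_succ_apply', ih v hv,
        hpt _ (hnei n v hv)]
  have hkey : ∀ (a b : ℕ) (v : k × k), v ≠ 0 →
      (h^[a] (pt v) = h^[b] (pt v) ↔ cr (φ^[a] v) (φ^[b] v) = 0) := by
    intro a b v hv
    rw [hpti a v hv, hpti b v hv, pt_eq_iff (hnei a v hv) (hnei b v hv)]
  -- surjectivity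
  have hsurj : Function.Surjective h := by
    intro s
    by_cases hc : (lf s).2 * A.coeff δ - (lf s).1 * B.coeff δ = 0
    · refine ⟨none, ?_⟩
      rw [← pt_lf s]
      change pt (φ (lf none)) = _
      rw [pt_eq_iff (hne _ (lf_ne _)) (lf_ne _)]
      change hev A δ (1 : k) 0 * (lf s).2 - hev B δ (1 : k) 0 * (lf s).1 = 0
      rw [hev_right_zero, hev_right_zero]
      simp only [Algebra.algebraMap_self, RingHom.id_apply, one_pow, mul_one]
      linear_combination hc
    · have hdeg : (C (lf s).2 * A - C (lf s).1 * B).natDegree = δ := by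
        apply le_antisymm
        · exact (natDegree_sub_le _ _).trans (max_le ((natDegree_C_mul_le _ _).trans hAB.degF)
            ((natDegree_C_mul_le _ _).trans hAB.degG))
        · apply le_natDegree_of_ne_zero
          rw [coeff_sub, coeff_C_mul, coeff_C_mul]
          exact hc
      obtain ⟨x, hx⟩ := IsAlgClosed.exists_root (C (lf s).2 * A - C (lf s).1 * B) (by
        intro h0
        rw [degree_eq_natDegree (by intro h0; rw [h0, natDegree_zero] at hdeg; omega), hdeg] at h0
        have : δ = 0 := by exact_mod_cast h0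
        omega)
      refine ⟨some x, ?_⟩
      rw [← pt_lf s]
      change pt (φ (lf (some x))) = _
      rw [pt_eq_iff (hne _ (lf_ne _)) (lf_ne _)]
      change hev A δ x 1 * (lf s).2 - hev B δ x 1 * (lf s).1 = 0
      rw [hev_eq_eval A δ hAB.degF _ _ one_ne_zero, hev_eq_eval B δ hAB.degG _ _ one_ne_zero]
      rw [IsRoot.def, eval_sub, eval_mul, eval_mul, eval_C, eval_C] at hx
      simp only [one_pow, one_mul, div_one]
      linear_combination hx
  -- finiteness
  have hfin : {t | ∃ a b : ℕ, a < b ∧ h^[a] t = h^[b] t}.Finite := by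
    have hsub : {t | ∃ a b : ℕ, a < b ∧ h^[a] t = h^[b] t} ⊆
        insert none (some '' ⋃ i ∈ Finset.range (N + 1), ⋃ j ∈ Finset.range (N + 1),
          if i < j then ((coinc A B δ i j).roots.toFinset : Set k) else ∅) := by
      rintro t ⟨a, b, hab, he⟩
      cases t with
      | none => exact Set.mem_insert _ _
      | some x =>
        right
        refine ⟨x, ?_, rfl⟩
        have hx : ((x, 1) : k × k) ≠ 0 := fun h0 => one_ne_zero (congrArg Prod.snd h0)
        have hptx : pt ((x, 1) : k × k) = some x := pt_lf (some x)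
        rw [← hptx, hkey a b _ hx] at he
        obtain ⟨i, hi, j, hj, hij, hne'⟩ := hcon (x, 1) hx ⟨a, b, hab, he⟩
        have main : ∀ i j : ℕ, i ≤ N → j ≤ N → i < j →
            cr (φ^[i] (x, 1)) (φ^[j] (x, 1)) = 0 →
            x ∈ ⋃ i ∈ Finset.range (N + 1), ⋃ j ∈ Finset.range (N + 1),
              if i < j then ((coinc A B δ i j).roots.toFinset : Set k) else ∅ := by
          intro i j hi hj hlt hij
          have h3 := coinc_aeval (P := A) (Q := B) (d := δ) ((x, 1) : k × k) one_ne_zero i j hij
          simp only [Set.mem_iUnion, Finset.mem_range]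
          refine ⟨i, by omega, j, by omega, ?_⟩
          rw [if_pos hlt]
          rw [Finset.mem_coe, Multiset.mem_toFinset,
            mem_roots (coinc_ne_zero hAB.cop hAB.degF hAB.degG hAB.top hδ hlt), IsRoot.def]
          simpa [coe_aeval_eq_eval] using h3
        rcases lt_or_gt_of_ne hne' with h4 | h4
        · exact main i j hi hj h4 hij
        · refine main j i hj hi h4 ?_
          rw [cr_comm, hij, neg_zero]
    refine Set.Finite.subset ?_ hsub
    refine Set.Finite.insert _ (Set.Finite.image _ ?_)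
    refine Set.Finite.biUnion (Finset.finite_toSet _) fun i _ => ?_
    refine Set.Finite.biUnion (Finset.finite_toSet _) fun j _ => ?_
    split_ifs
    · exact Finset.finite_toSet _
    · exact Set.finite_empty
  obtain ⟨M, hM, hM1, hM2⟩ := exists_iterate h hsurj hfin
  have hDδ : 2 ≤ δ ^ M := by
    calc 2 ≤ δ := hδ
      _ = δ ^ 1 := (pow_one _).symm
      _ ≤ δ ^ M := Nat.pow_le_pow_right (by omega) hM
  have hphiM : ∀ v : k × k, phi (iter A B δ M).1 (iter A B δ M).2 (δ ^ M) v = φ^[M] v := by
    intro v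
    rw [hφ, phi_iter]
    rfl
  apply core_rat (iter A B δ M).1 (iter A B δ M).2 (δ ^ M) hDδ
    ⟨iter_isCoprime hAB.cop hAB.degF hAB.degG hAB.top M, (iter_natDegree M).1,
      (iter_natDegree M).2, iter_coeff hAB.cop hAB.degF hAB.degG hAB.top M⟩
  · intro v hv h3
    rw [hphiM, hphiM, ← Function.iterate_add_apply] at h3
    rw [hphiM]
    have h4 := (hkey (M + M) 0 v hv).2 h3
    have h5 := hM1 (pt v) ⟨0, M + M, by omega, h4.symm⟩
    exact (hkey M 0 v hv).1 h5
  · intro v w hv hw h3 h4
    rw [hphiM] at h3 h4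
    have h5 := (hkey M 0 v hv).2 h3
    have h6 := hM2 (pt w) (pt v) ⟨0, M, by omega, h5.symm⟩ (by
      rw [hpti M w hw, pt_eq_iff (hnei M w hw) hv]
      exact h4)
    exact (pt_eq_iff hw hv).1 h6

end main

end Pool.Agent.Helper35.DT
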